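import Pool.Agent.TH668.Rig.Main

set_option autoImplicit false

/-!
# The matrices `f (x y)` on the powers of a fixed commutative semigroup are not rigid

Let `S` be a finite semigroup with at least two elements which is commutative, or, more generally,
all of whose irreducible representations over the algebraic closure of the field `F` are
one-dimensional (stated as: every nonzero finite-dimensional representation has a common
eigenvector). For all `δ > 0` there is `γ > 0` such that for all large `n` and all functions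
`f : S ^ n → F` the `N × N` matrix `(f (x y))`, `x, y ∈ S ^ n`, `N = |S| ^ n`, is the sum of a matrix
of rank at most `N ^ (1 - γ)` and of a matrix with at most `N ^ δ` nonzero entries in each row. In
particular it is not `(ε N, N ^ (1 + δ))`-rigid.

Proof. Let `A` be the algebra of `S` over the algebraic closure, `q = |S|`. There is a chain of
two-sided ideals `I_0 < I_1 < ...`, `dim I_k = k`, such that `S` acts on `I_{k+1} / I_k` by scalars
from both sides: a common eigenvector for the left action on a quotient `A / I`, then one for the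
right action in the space of these (by duality every representation of the opposite semigroup has a
common eigenvector, too). Let `I_{k+1} = I_k + K v` and let `V_k` be the right annihilator of `I_k`.
For `b` in `V_k` the product `v b` is a left eigenvector of `S` with the same eigenvalues `ψ` as
`v` modulo `I_k`. If the space of these eigenvectors has dimension at least two, then its product
with the kernel of `ψ` on the left is zero, and the sum of the two dimensions is larger than `q`. If
not, the dimension of `V_{k+1}` is at least the one of `V_k` minus one. So either there are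
subspaces `U`, `V` of `A` with `U V = 0` and `dim U + dim V > q`, or `dim V_k = q - k` for all `k`,
and there are bases `a`, `b` of `A` with `a_i b_j = 0` for `i < j`.

In the first case, in bases adapted to `U` and `V`, an entry of the matrix `(f (x y))` is zero if
some coordinate of the row index is in the part of `U` and the same coordinate of the column index
is in the part of `V`; this is so for all but exponentially few rows and columns, hence the rank is
small. In the second case the matrix is `A₁ T A₂`, where `T` is triangular in each coordinate and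
`A₁`, `A₂` are tensor powers of `q × q` matrices; by Gaussian elimination these are products of
tensor powers of permutation matrices and of triangular matrices. The sum of the coordinates is
nearly constant outside of a small set of rows and columns, and so a nonzero entry of a matrix that
is triangular in each coordinate has a small Hamming distance there. Finally one descends from a
finite extension to `F`.

The lemmas on sums of sparse and low rank matrices are those of the starting library
`Pool/Agent/W967/Rig`.
-/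

namespace Pool.Agent.Results.MP_0775d3_lc.SemigroupMatrices

open Pool.Agent.TH668.Rig

/-- the number of nonzero entries -/
noncomputable def sp {X F : Type} [Field F] (Z : Matrix X X F) : ℕ :=
  Nat.card {p : X × X // Z p.1 p.2 ≠ 0}

/-- `A` is `(r, s)`-rigid: it is not the sum of a matrix of rank at most `r` and a matrix with at
most `s` nonzero entries -/
def Rigid {X F : Type} [Fintype X] [Field F] (r s : ℝ) (A : Matrix X X F) : Prop :=
  ¬ ∃ R Z : Matrix X X F, A = R + Z ∧ (R.rank : ℝ) ≤ r ∧ (sp Z : ℝ) ≤ s

/-- the matrix `(f (x y))`, `x, y ∈ S ^ n`, for the coordinatewise product -/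
def M {S F : Type} [Semigroup S] {n : ℕ} (f : (Fin n → S) → F) :
    Matrix (Fin n → S) (Fin n → S) F :=
  Matrix.of fun x y => f (x * y)

theorem result (F S : Type) [Field F] [Semigroup S] [Fintype S] (h2 : 2 ≤ Fintype.card S)
    (hS : (∀ s t : S, s * t = t * s) ∨ OneDim (AlgebraicClosure F) S) :
    (∀ δ : ℝ, 0 < δ → ∃ γ : ℝ, 0 < γ ∧ ∃ n₀ : ℕ, ∀ n : ℕ, n₀ ≤ n → ∀ f : (Fin n → S) → F,
      ∃ R Z : Matrix (Fin n → S) (Fin n → S) F, M f = R + Z ∧
        (R.rank : ℝ) ≤ ((Fintype.card S : ℝ) ^ n) ^ (1 - γ) ∧
        ∀ x, (Nat.card {y // Z x y ≠ 0} : ℝ) ≤ ((Fintype.card S : ℝ) ^ n) ^ δ) ∧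
    (∀ ε δ : ℝ, 0 < ε → 0 < δ → ∃ n₀ : ℕ, ∀ n : ℕ, n₀ ≤ n → ∀ f : (Fin n → S) → F,
      ¬ Rigid (ε * (Fintype.card S : ℝ) ^ n) (((Fintype.card S : ℝ) ^ n) ^ (1 + δ)) (M f)) := by
  classical
  have hS' : OneDim (AlgebraicClosure F) S := hS.elim oneDim_of_comm id
  have key : ∀ δ : ℝ, 0 < δ → ∃ γ : ℝ, 0 < γ ∧ ∃ n₀ : ℕ, ∀ n : ℕ, n₀ ≤ n →
      ∀ f : (Fin n → S) → F, ∃ R Z : Matrix (Fin n → S) (Fin n → S) F, M f = R + Z ∧
        (R.rank : ℝ) ≤ ((Fintype.card S : ℝ) ^ n) ^ (1 - γ) ∧
        ∀ x, (Nat.card {y // Z x y ≠ 0} : ℝ) ≤ ((Fintype.card S : ℝ) ^ n) ^ δ := by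
    intro δ hδ
    obtain ⟨γ, hγ, n₀, h⟩ := main F S h2 hS' hδ
    refine ⟨γ, hγ, n₀, fun n hn f => ?_⟩
    obtain ⟨Z, R, e, hR, hZ⟩ := h n hn f
    refine ⟨R, Z, by rw [M, e, add_comm], hR.rank_le, fun x => ?_⟩
    refine le_of_eq_of_le ?_ (hZ x)
    rw [Nat.card_eq_fintype_card, Fintype.card_subtype]
  refine ⟨key, fun ε δ hε hδ => ?_⟩
  obtain ⟨γ, hγ, n₀, h⟩ := key δ hδ
  have hq1 : (1 : ℝ) < Fintype.card S := by exact_mod_cast (by omega : 1 < Fintype.card S)
  have hq0 : (0 : ℝ) < Fintype.card S := by linarith
  -- `N ^ (- γ) ≤ ε` for large `n`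
  have hb : (Fintype.card S : ℝ) ^ (-γ) < 1 := Real.rpow_lt_one_of_one_lt_of_neg hq1 (by linarith)
  have hb0 : 0 ≤ (Fintype.card S : ℝ) ^ (-γ) := by positivity
  obtain ⟨n₁, hn₁⟩ := exists_pow_lt_of_lt_one hε hb
  refine ⟨max n₀ n₁, fun n hn f => ?_⟩
  obtain ⟨R, Z, e, hR, hZ⟩ := h n ((le_max_left _ _).trans hn) f
  rw [Rigid, not_not]
  have hN0 : (0 : ℝ) < (Fintype.card S : ℝ) ^ n := by positivity
  refine ⟨R, Z, e, hR.trans ?_, ?_⟩
  · rw [sub_eq_add_neg, Real.rpow_add hN0, Real.rpow_one, mul_comm ε]
    refine mul_le_mul_of_nonneg_left ?_ hN0.le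
    have h1 : ((Fintype.card S : ℝ) ^ n) ^ (-γ) = ((Fintype.card S : ℝ) ^ (-γ)) ^ n := by
      rw [← Real.rpow_natCast, ← Real.rpow_natCast, ← Real.rpow_mul hq0.le, ← Real.rpow_mul hq0.le,
        mul_comm]
    rw [h1]
    exact (pow_le_pow_of_le_one hb0 hb.le ((le_max_right _ _).trans hn)).trans hn₁.le
  · rw [Real.rpow_add hN0, Real.rpow_one]
    have e1 : {p : (Fin n → S) × (Fin n → S) // Z p.1 p.2 ≠ 0} ≃
        Σ x : (Fin n → S), {y : (Fin n → S) // Z x y ≠ 0} :=
      { toFun := fun p => ⟨p.1.1, ⟨p.1.2, p.2⟩⟩
        invFun := fun q => ⟨(q.1, q.2.1), q.2.2⟩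
        left_inv := fun _ => rfl
        right_inv := fun _ => rfl }
    have e2 : sp Z = ∑ x : (Fin n → S), Nat.card {y : (Fin n → S) // Z x y ≠ 0} := by
      rw [sp, Nat.card_congr e1, Nat.card_sigma]
    rw [e2]
    push_cast
    calc ∑ x : (Fin n → S), (Nat.card {y : (Fin n → S) // Z x y ≠ 0} : ℝ)
        ≤ ∑ _x : (Fin n → S), ((Fintype.card S : ℝ) ^ n) ^ δ := Finset.sum_le_sum fun x _ => hZ x
      _ = (Fintype.card S : ℝ) ^ n * ((Fintype.card S : ℝ) ^ n) ^ δ := by
        rw [Finset.sum_const, Finset.card_univ, nsmul_eq_mul]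
        simp

end Pool.Agent.Results.MP_0775d3_lc.SemigroupMatrices
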